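import Pool.Agent.Helper26.HW.Stmts

/-! # Row UNS: the sum over the other nuclei -/

set_option autoImplicit false

namespace Pool.Agent.Helper18.HW

open MeasureTheory Filter Pool.Agent.Helper95 Pool.Agent.Helper95.PW Pool.Agent.Helper95.LN
  Pool.Agent.Helper95.CF
open Pool.Agent.Helper95.HV Pool.Agent.Helper26.HW

theorem UNS (h1 : ST_DIE) (h2 : ST_FGZ) (h3 : ST_FFZ) (h4 : ST_NBZ) : ST_UNS := by
  intro d hd hd1
  obtain ⟨C1, hC1, H1⟩ := h1 d hd hd1
  obtain ⟨C2, hC2, H2⟩ := h2 d hd hd1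
  obtain ⟨C3, hC3, H3⟩ := h3 d hd hd1
  obtain ⟨C4, hC4, H4⟩ := h4 d hd hd1
  refine ⟨C1 * (C4 + 1) + C2 * (C3 + C4), by positivity, ?_⟩
  intro z K n M X Z x e a hD hx hDn hRem hK he ha ha0
  obtain ⟨E, hE1, hE2⟩ := H3 z n M X Z x hD
  have hN := H4 z n M X Z x hD
  have hI := H1 n M X x e a K hD.sep hx he ha ha0
  have hE0 : ∀ i, 0 ≤ E i := fun i => (abs_nonneg _).trans (hE1 i 0 (X i) (by
    rw [sub_self]
    have : nr 0 = 0 := by simp [nr]
    rw [this]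
    exact hd.le))
  obtain ⟨A, hA⟩ : ∃ A : Fin M → Fin n → ℝ, A = fun i k => if nr (x k - X i) ≤ d / 2 then
      (∑ l, if nr (x l - X i) < 3 / 2 * d then 0 else Tq (x k - x l) e (a k)) else 0 := ⟨_, rfl⟩
  obtain ⟨B, hB⟩ : ∃ B : Fin M → Fin n → ℝ, B = fun i k => if nr (x k - X i) ≤ d / 2 then
      (∑ j, if j = i then 0 else Z j * Tq (x k - X j) e (a k)) else 0 := ⟨_, rfl⟩
  have hdiff : ∀ i k, |A i k - B i k| ≤
      C2 * K ^ 2 * E i * (if nr (x k - X i) < 3 / 2 * d then 1 else 0) := by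
    intro i k
    simp only [hA, hB]
    by_cases h : nr (x k - X i) ≤ d / 2
    · rw [if_pos h, if_pos h, if_pos (by linarith : nr (x k - X i) < 3 / 2 * d), mul_one]
      exact H2 n M X Z x i (E i) K e (a k) (x k) hD.sep (fun m y hy => hE1 i m y hy)
        (fun m => (he m).trans hK) (ha k) h
    · rw [if_neg h, if_neg h, sub_zero, abs_zero]
      have := hE0 i
      split_ifs
      · positivity
      · simp
  have hsum : |(∑ i, ∑ k, A i k) - ∑ i, ∑ k, B i k| ≤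
      C2 * K ^ 2 * ∑ i, E i * cnt X (3 / 2 * d) x i := by
    rw [← Finset.sum_sub_distrib, Finset.mul_sum]
    refine (Finset.abs_sum_le_sum_abs _ _).trans (Finset.sum_le_sum fun i _ => ?_)
    rw [← Finset.sum_sub_distrib]
    refine (Finset.abs_sum_le_sum_abs _ _).trans ?_
    refine (Finset.sum_le_sum fun k _ => hdiff i k).trans ?_
    rw [← Finset.mul_sum]
    unfold cnt
    rw [mul_assoc]
  have hEc : ∑ i, E i * cnt X (3 / 2 * d) x i ≤
      ∑ i, E i ^ 2 + ∑ i, cnt X (3 / 2 * d) x i ^ 2 := by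
    rw [← Finset.sum_add_distrib]
    refine Finset.sum_le_sum fun i _ => ?_
    nlinarith [sq_nonneg (E i - cnt X (3 / 2 * d) x i), sq_nonneg (E i),
      sq_nonneg (cnt X (3 / 2 * d) x i)]
  have hM0 : (0 : ℝ) ≤ M := Nat.cast_nonneg M
  have hz := hD.z1
  have hn : (n : ℝ) ≤ z ^ 2 * M := by
    have e1 : ∑ j, Z j = (n : ℝ) := hD.nuc.2
    have e2 : ∑ j, Z j ≤ ∑ _j : Fin M, z := Finset.sum_le_sum fun j _ => hD.le j
    rw [Finset.sum_const, Finset.card_univ, Fintype.card_fin, nsmul_eq_mul] at e2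
    rw [← e1]
    have e3 : (M : ℝ) * z ≤ z ^ 2 * M := by
      have : 0 ≤ (M : ℝ) * (z * (z - 1)) := mul_nonneg hM0 (mul_nonneg (by linarith) (by linarith))
      nlinarith
    linarith
  have hnear : 0 ≤ z * ∑ k, near1 X d (x k) := by
    refine mul_nonneg (by linarith) (Finset.sum_nonneg fun k _ => ?_)
    unfold near1
    refine Finset.sum_nonneg fun j _ => ?_
    split_ifs
    · exact div_nonneg zero_le_one (Real.sqrt_nonneg _)
    · exact le_rfl
  obtain ⟨T, hT⟩ : ∃ T, T = z ^ 2 * (M : ℝ) := ⟨_, rfl⟩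
  have hT0 : 0 ≤ T := by rw [hT]; positivity
  obtain ⟨L, hL⟩ : ∃ L, L = Loc d z X Z x := ⟨_, rfl⟩
  have hL1 : T + Dn (d / 8) X Z x + Rem (d / 8) x ≤ L := by
    rw [hL, hT]
    unfold Loc
    linarith
  rw [← hT] at hn hN hE2
  have hAI : |∑ i, ∑ k, A i k| ≤
      C1 * K * (∑ i, cnt X (3 / 2 * d) x i ^ 2 + n + Rem (d / 8) x) := by
    rw [hA]
    exact hI
  have hBe : |∑ i, ∑ k, B i k| ≤ (C1 * (C4 + 1) + C2 * (C3 + C4)) * K ^ 2 * L := by
    have t1 : |∑ i, ∑ k, B i k| ≤ |∑ i, ∑ k, A i k| +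
        |(∑ i, ∑ k, A i k) - ∑ i, ∑ k, B i k| := by
      have := abs_sub (∑ i, ∑ k, A i k) ((∑ i, ∑ k, A i k) - ∑ i, ∑ k, B i k)
      rw [sub_sub_cancel] at this
      exact this
    have t2 : ∑ i, cnt X (3 / 2 * d) x i ^ 2 + n + Rem (d / 8) x ≤ (C4 + 1) * L := by
      have u1 : C4 * (T + Dn (d / 8) X Z x) ≤ C4 * L :=
        mul_le_mul_of_nonneg_left (by linarith) hC4.le
      linarith
    have hL0 : 0 ≤ L := by linarith
    have t3 : C1 * K * (∑ i, cnt X (3 / 2 * d) x i ^ 2 + n + Rem (d / 8) x) ≤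
        C1 * (C4 + 1) * K ^ 2 * L := by
      calc C1 * K * (∑ i, cnt X (3 / 2 * d) x i ^ 2 + n + Rem (d / 8) x)
          ≤ C1 * K * ((C4 + 1) * L) := mul_le_mul_of_nonneg_left t2 (by positivity)
        _ = C1 * (C4 + 1) * L * K := by ring
        _ ≤ C1 * (C4 + 1) * L * K ^ 2 :=
            mul_le_mul_of_nonneg_left (by nlinarith) (by positivity)
        _ = C1 * (C4 + 1) * K ^ 2 * L := by ring
    have t4 : C2 * K ^ 2 * ∑ i, E i * cnt X (3 / 2 * d) x i ≤ C2 * (C3 + C4) * K ^ 2 * L := by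
      have u1 : C4 * (T + Dn (d / 8) X Z x) ≤ C4 * L :=
        mul_le_mul_of_nonneg_left (by linarith) hC4.le
      have u2 : C3 * (T + Dn (d / 8) X Z x) ≤ C3 * L :=
        mul_le_mul_of_nonneg_left (by linarith) hC3.le
      calc C2 * K ^ 2 * ∑ i, E i * cnt X (3 / 2 * d) x i
          ≤ C2 * K ^ 2 * ((C3 + C4) * L) :=
            mul_le_mul_of_nonneg_left (by linarith) (by positivity)
        _ = C2 * (C3 + C4) * K ^ 2 * L := by ring
    calc |∑ i, ∑ k, B i k| ≤ C1 * (C4 + 1) * K ^ 2 * L + C2 * (C3 + C4) * K ^ 2 * L := by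
          linarith
      _ = (C1 * (C4 + 1) + C2 * (C3 + C4)) * K ^ 2 * L := by ring
  rw [hB, hL] at hBe
  exact hBe

end Pool.Agent.Helper18.HW
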